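import Pool.Agent.Work.MP_8f87b2_rec.Rec
import Pool.Agent.Work.MP_8f87b2_base.Frame

/-!
MP_8f87b2_co: the content (multiset of the soliton sizes) of a word; `T` keeps the content.
`cont nil = 0`, `cont (A △ B) = raise (cont A) + cont B`, `raise M` = the largest part plus one.
Height `ht`, number of parts `pkn`, size `numNodes`.
-/

namespace Pool.OddHC

open Finset BinaryTree Multiset

/-- raise the largest part by one, `raise 0 = {1}` -/
def raise (M : Multiset ℕ) : Multiset ℕ := (M.sup + 1) ::ₘ M.erase M.sup

theorem sup_mem {M : Multiset ℕ} (h : M ≠ 0) : M.sup ∈ M := by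
  induction M using Multiset.induction with
  | empty => exact absurd rfl h
  | cons a s ih =>
    rw [Multiset.sup_cons]
    rcases eq_or_ne s 0 with rfl | hs
    · simp
    · rcases le_total a s.sup with h1 | h1
      · rw [sup_eq_right.2 h1]
        exact Multiset.mem_cons_of_mem (ih hs)
      · rw [sup_eq_left.2 h1]
        exact Multiset.mem_cons_self a s

theorem raise_zero : raise 0 = {1} := by
  unfold raise
  simp

theorem raise_ne_zero (M : Multiset ℕ) : raise M ≠ 0 := Multiset.cons_ne_zero

theorem raise_sum (M : Multiset ℕ) : (raise M).sum = M.sum + 1 := by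
  rcases eq_or_ne M 0 with rfl | h
  · simp [raise_zero]
  · unfold raise
    rw [Multiset.sum_cons]
    have h1 := Multiset.sum_erase (sup_mem h)
    omega

theorem raise_card {M : Multiset ℕ} (h : M ≠ 0) : Multiset.card (raise M) = Multiset.card M := by
  unfold raise
  rw [Multiset.card_cons, Multiset.card_erase_add_one (sup_mem h)]

theorem sup_raise (M : Multiset ℕ) : (raise M).sup = M.sup + 1 := by
  unfold raise
  rw [Multiset.sup_cons]
  apply sup_eq_left.2
  apply Multiset.sup_le.2
  intro b hb
  exact (Multiset.le_sup (Multiset.mem_of_mem_erase hb)).trans (Nat.le_succ _)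

theorem sup_add' (M N : Multiset ℕ) : (M + N).sup = max M.sup N.sup := Multiset.sup_add M N

/-- the part below the top is unchanged -/
theorem count_raise {M : Multiset ℕ} (b : ℕ) (h1 : b ≠ M.sup) (h2 : b ≠ M.sup + 1) :
    (raise M).count b = M.count b := by
  unfold raise
  rw [Multiset.count_cons_of_ne h2, Multiset.count_erase_of_ne h1]

theorem count_raise_top (M : Multiset ℕ) : (raise M).count (M.sup + 1) = 1 := by
  unfold raise
  rw [Multiset.count_cons_self, Multiset.count_erase_of_ne (by omega)]
  have : M.count (M.sup + 1) = 0 := by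
    rw [Multiset.count_eq_zero]
    intro h
    have := Multiset.le_sup h
    omega
  omega

theorem count_raise_sup {M : Multiset ℕ} (h : M ≠ 0) :
    (raise M).count M.sup + 1 = M.count M.sup := by
  unfold raise
  rw [Multiset.count_cons_of_ne (by omega), Multiset.count_erase_self]
  have := Multiset.count_pos.2 (sup_mem h)
  omega

/-- the content -/
def cont : BinaryTree Unit → Multiset ℕ
  | .nil => 0
  | .node _ A B => raise (cont A) + cont B

theorem cont_node (A B : BinaryTree Unit) : cont (A △ B) = raise (cont A) + cont B := rfl

theorem cont_nil : cont .nil = 0 := rfl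

theorem cont_eq_zero {t : BinaryTree Unit} : cont t = 0 ↔ t = .nil := by
  cases t with
  | nil => simp [cont]
  | node _ A B =>
    constructor
    · intro h
      rw [cont] at h
      exact absurd (add_eq_zero.1 h).1 (raise_ne_zero _)
    · intro h
      simp at h

theorem cont_app (P Q : BinaryTree Unit) : cont (app P Q) = cont P + cont Q := by
  induction P with
  | nil => rw [app, cont, zero_add]
  | node _ A B _ ih =>
    rw [app, cont_node, ih, cont]
    rw [add_assoc]

theorem cont_w1 (P Q R : BinaryTree Unit) :
    cont (w1 P Q R) = cont P + (raise (cont Q) + cont R) := by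
  rw [w1, cont_app, cont_node]

theorem cont_sum (t : BinaryTree Unit) : (cont t).sum = t.numNodes := by
  induction t with
  | nil => rfl
  | node _ A B ihA ihB =>
    rw [cont, Multiset.sum_add, raise_sum, ihA, ihB]
    change A.numNodes + 1 + B.numNodes = A.numNodes + B.numNodes + 1
    ring

theorem cont_card (t : BinaryTree Unit) : Multiset.card (cont t) = pkn t := by
  induction t with
  | nil => rfl
  | node _ A B ihA ihB =>
    rw [cont, Multiset.card_add, ihB, pkn]
    cases A with
    | nil => rw [cont, raise_zero]; simp [leaf, pkn]
    | node _ C D =>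
      have h : cont (BinaryTree.node () C D) ≠ 0 := by
        rw [Ne, cont_eq_zero]
        simp
      rw [raise_card h, ihA, leaf, zero_add]

theorem cont_pos (t : BinaryTree Unit) : ∀ b ∈ cont t, 1 ≤ b := by
  induction t with
  | nil => intro b hb; simp [cont] at hb
  | node _ A B ihA ihB =>
    intro b hb
    rw [cont, Multiset.mem_add] at hb
    rcases hb with hb | hb
    · unfold raise at hb
      rw [Multiset.mem_cons] at hb
      rcases hb with rfl | hb
      · omega
      · exact ihA b (Multiset.mem_of_mem_erase hb)
    · exact ihB b hb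

/-! ### Height -/

/-- the height of the path = the largest part -/
def ht : BinaryTree Unit → ℕ
  | .nil => 0
  | .node _ A B => max (ht A + 1) (ht B)

theorem ht_node (A B : BinaryTree Unit) : ht (A △ B) = max (ht A + 1) (ht B) := rfl

theorem ht_eq (t : BinaryTree Unit) : ht t = (cont t).sup := by
  induction t with
  | nil => rfl
  | node _ A B ihA ihB => rw [ht, cont, sup_add', sup_raise, ihA, ihB]

theorem ht_app (P Q : BinaryTree Unit) : ht (app P Q) = max (ht P) (ht Q) := by
  rw [ht_eq, cont_app, sup_add', ← ht_eq, ← ht_eq]

theorem ht_w1 (P Q R : BinaryTree Unit) : ht (w1 P Q R) = max (ht P) (max (ht Q + 1) (ht R)) := by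
  rw [w1, ht_app, ht_node]

theorem ht_pos {t : BinaryTree Unit} (h : t ≠ .nil) : 1 ≤ ht t := by
  cases t with
  | nil => exact absurd rfl h
  | node _ A B => rw [ht]; omega

/-! ### Content and reduction -/

/-- `raise` commutes with the inflation of a nonzero content -/
theorem raise_map {M : Multiset ℕ} (h : M ≠ 0) (n : ℕ) :
    raise (M.map (· + 1) + replicate n 1) = (raise M).map (· + 1) + replicate n 1 := by
  have hs : (M.map (· + 1)).sup = M.sup + 1 := by
    apply le_antisymm
    · apply Multiset.sup_le.2
      intro b hb
      obtain ⟨c, hc, rfl⟩ := Multiset.mem_map.1 hb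
      exact Nat.succ_le_succ (Multiset.le_sup hc)
    · exact Multiset.le_sup (Multiset.mem_map.2 ⟨M.sup, sup_mem h, rfl⟩)
  have hr : (replicate n 1 : Multiset ℕ).sup ≤ 1 := by
    apply Multiset.sup_le.2
    intro b hb
    rw [Multiset.eq_of_mem_replicate hb]
  have h1 : (M.map (· + 1) + replicate n 1).sup = M.sup + 1 := by
    rw [sup_add', hs]
    exact max_eq_left (hr.trans (by omega))
  have hm : M.sup + 1 ∈ M.map (· + 1) := Multiset.mem_map.2 ⟨M.sup, sup_mem h, rfl⟩
  unfold raise
  rw [h1, Multiset.erase_add_left_pos _ hm, Multiset.map_cons, Multiset.cons_add]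
  congr 2
  exact (Multiset.map_erase (· + 1) (add_left_injective 1) M.sup M).symm

theorem cont_lv (n : ℕ) (t : BinaryTree Unit) : cont (lv n t) = replicate n 1 + cont t := by
  induction n with
  | zero => rw [lv, replicate_zero, zero_add]
  | succ n ih =>
    rw [lv, cont_node, ih, cont_nil, raise_zero, Multiset.replicate_succ, ← add_assoc]
    rfl

/-- RECURSION for the contents -/
theorem cont_ins : ∀ (t : BinaryTree Unit) (e : List ℕ), e.length = 2 * t.numNodes + 1 →
    cont (ins t e) = (cont t).map (· + 1) + replicate e.sum 1 := by
  intro t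
  induction t with
  | nil =>
    intro e he
    obtain ⟨n, rfl⟩ : ∃ n, e = [n] := List.length_eq_one_iff.1 (by simpa using he)
    rw [ins, cont_lv, cont_nil]
    simp
  | node _ A B ihA ihB =>
    intro e he
    obtain ⟨n, a, c, h1, h2, h3, h4, h5⟩ := split_e he
    have ha : a ≠ [] := by
      intro h
      rw [h] at h2
      simp at h2
    have i1 := ihA (bump A a) (by rw [bump_length ha, h2])
    have i2 := ihB c h3
    have e1 : raise (cont (ins A (bump A a))) =
        (raise (cont A)).map (· + 1) + replicate a.sum 1 := by
      rw [i1, sum_bump ha]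
      cases A with
      | nil =>
        rw [leaf, cont_nil, raise_zero, Multiset.map_zero, zero_add, Multiset.replicate_succ]
        have hr : (1 ::ₘ replicate a.sum 1 : Multiset ℕ).sup = 1 := by
          rw [Multiset.sup_cons]
          apply sup_eq_left.2
          apply Multiset.sup_le.2
          intro b hb
          rw [Multiset.eq_of_mem_replicate hb]
        unfold raise
        rw [hr, Multiset.erase_cons_head]
        rfl
      | node _ C D =>
        have h : cont (BinaryTree.node () C D) ≠ 0 := by
          rw [Ne, cont_eq_zero]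
          simp
        rw [leaf, add_zero]
        exact raise_map h _
    rw [ins, h4, h5, cont_lv, cont_node, e1, i2, cont, h1, List.headD_cons, List.sum_cons,
      List.sum_append, Multiset.map_add, Multiset.replicate_add, Multiset.replicate_add]
    abel

theorem pkn_pos {k : ℕ} (w : X k) (hk : 1 ≤ k) : 1 ≤ pkn w.1 := by
  have h1 := X_num w
  rw [← cont_card]
  rw [Nat.one_le_iff_ne_zero, Ne, Multiset.card_eq_zero, cont_eq_zero]
  intro h
  rw [h] at h1
  simp at h1
  omega

/-- `T` KEEPS THE CONTENT -/
theorem cont_TF : ∀ {k : ℕ} (w : X k), cont (TF w).1 = cont w.1 := by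
  intro k
  induction k using Nat.strong_induction_on with
  | _ k ih =>
    intro w
    rcases Nat.eq_zero_or_pos k with rfl | hk
    · have h1 := X_num w
      have h2 := X_num (TF w)
      have h3 : cont w.1 = 0 := by
        have := cont_card w.1
        have h4 := cont_sum w.1
        rw [cont_eq_zero]
        cases h : w.1 with
        | nil => rfl
        | node _ A B =>
          rw [h] at h1
          change A.numNodes + B.numNodes + 1 = 0 at h1
          omega
      have h4 : cont (TF w).1 = 0 := by
        rw [cont_eq_zero]
        cases h : (TF w).1 with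
        | nil => rfl
        | node _ A B =>
          rw [h] at h2
          change A.numNodes + B.numNodes + 1 = 0 at h2
          omega
      rw [h3, h4]
    · obtain ⟨j, u, e, he, hw, h1, h2⟩ := red_ex w
      have hp := pkn_pos w hk
      have h3 := (TF_ins u e he w hw).1
      rw [h3, cont_ins _ _ (by rw [List.length_rotate, X_num, he]), hw,
        cont_ins _ _ (by rw [X_num, he]), ih j (by omega) u, (List.rotate_perm e _).sum_eq]

theorem ht_TF {k : ℕ} (w : X k) : ht (TF w).1 = ht w.1 := by
  rw [ht_eq, ht_eq, cont_TF]

/-- the content is constant on the `T`-cycles -/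
theorem cont_same {k : ℕ} {w u : X k} (h : TT.SameCycle w u) : cont w.1 = cont u.1 := by
  obtain ⟨n, hn⟩ := same_nat h
  rw [← hn]
  clear hn h
  induction n with
  | zero => rfl
  | succ n ih => rw [pow_succ', Equiv.Perm.mul_apply, TT_apply, cont_TF, ih]

theorem ht_same {k : ℕ} {w u : X k} (h : TT.SameCycle w u) : ht w.1 = ht u.1 := by
  rw [ht_eq, ht_eq, cont_same h]

/-- number of the `1`-solitons = sum of the extras -/
theorem count_one_ins (t : BinaryTree Unit) (e : List ℕ) (he : e.length = 2 * t.numNodes + 1) :
    (cont (ins t e)).count 1 = e.sum := by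
  rw [cont_ins t e he, Multiset.count_add, Multiset.count_replicate_self]
  have : ((cont t).map (· + 1)).count 1 = 0 := by
    rw [Multiset.count_eq_zero]
    intro h
    obtain ⟨b, hb, hb1⟩ := Multiset.mem_map.1 h
    have := cont_pos t b hb
    omega
  omega

end Pool.OddHC
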